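import Mathlib

namespace Pool.Agent.Results.MP_5e02e7_ag.Gap
open Matrix Filter Topology

/-- `(A₁ ⊗ ⋯ ⊗ A_d) T`, tensors being given by their coordinates. -/
noncomputable def act {d n : ℕ} (A : Fin d → Matrix (Fin n) (Fin n) ℂ) (T : (Fin d → Fin n) → ℂ) :
    (Fin d → Fin n) → ℂ :=
  fun i => ∑ j, (∏ k, A k (i k) (j k)) * T j

/-- The unit tensor `I_r`. -/
noncomputable def unitT (d n r : ℕ) : (Fin d → Fin n) → ℂ :=
  ∑ a : Fin n, if (a : ℕ) < r then Pi.single (fun _ => a) 1 else 0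

/-- The orbit under `GL_n(ℂ)^d`. -/
def orbit {d n : ℕ} (T : (Fin d → Fin n) → ℂ) : Set ((Fin d → Fin n) → ℂ) :=
  {S | ∃ g : Fin d → GL (Fin n) ℂ, S = act (fun k => (g k : Matrix (Fin n) (Fin n) ℂ)) T}

/-- Border subrank. -/
noncomputable def borderQ {d n : ℕ} (T : (Fin d → Fin n) → ℂ) : ℕ :=
  sSup {r | r ≤ n ∧ unitT d n r ∈ closure (orbit T)}

/-- Hilbert–Mumford subrank; the one-parameter subgroup is `t ↦ (h_k diag(t ^ a_k) h_k⁻¹)_k`. -/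
noncomputable def hmQ {d n : ℕ} (T : (Fin d → Fin n) → ℂ) : ℕ :=
  sSup {r | r ≤ n ∧ ∃ (h : Fin d → GL (Fin n) ℂ) (a : Fin d → Fin n → ℤ),
    ∃ J ∈ orbit (unitT d n r), Tendsto (fun t : ℂ => act (fun k =>
      (h k).val * diagonal (fun i => t ^ a k i) * ((h k)⁻¹).val) T)
      (𝓝[≠] 0) (𝓝 J)}

lemma act_act {d n : ℕ} (A B : Fin d → Matrix (Fin n) (Fin n) ℂ) (T : (Fin d → Fin n) → ℂ) :
    act A (act B T) = act (fun k => A k * B k) T := by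
  funext i
  simp only [act, Finset.mul_sum, Matrix.mul_apply]
  rw [Finset.sum_comm]
  refine Finset.sum_congr rfl fun l _ => ?_
  rw [Finset.prod_univ_sum, Fintype.piFinset_univ, Finset.sum_mul]
  refine Finset.sum_congr rfl fun j _ => ?_
  rw [Finset.prod_mul_distrib, mul_assoc]

lemma act_cont {d n : ℕ} (A : Fin d → Matrix (Fin n) (Fin n) ℂ) : Continuous (act A) :=
  continuous_pi fun _ => continuous_finsetSum _ fun j _ => continuous_const.mul (continuous_apply j)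

lemma act_add {d n : ℕ} (A : Fin d → Matrix (Fin n) (Fin n) ℂ) (S T : (Fin d → Fin n) → ℂ)
    (i : Fin d → Fin n) : act A (S + T) i = act A S i + act A T i := by
  simp [act, mul_add, Finset.sum_add_distrib]

lemma act_single {d n : ℕ} (A : Fin d → Matrix (Fin n) (Fin n) ℂ) (j i : Fin d → Fin n) (c : ℂ) :
    act A (Pi.single j c) i = (∏ k, A k (i k) (j k)) * c := by
  simp [act, Pi.single_apply]

noncomputable def T0 : (Fin 4 → Fin 3) → ℂ :=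
  Pi.single ![0, 0, 1, 1] (-1) + Pi.single ![0, 1, 0, 0] 1 + Pi.single ![1, 0, 0, 0] 1
    + Pi.single ![1, 0, 1, 0] 1 + Pi.single ![1, 1, 1, 1] 1 + Pi.single ![2, 0, 0, 0] 1
    + Pi.single ![2, 1, 0, 1] 1

lemma act_T0 (A : Fin 4 → Matrix (Fin 3) (Fin 3) ℂ) (a b c d : Fin 3) :
    act A T0 ![a, b, c, d] = -(A 0 a 0 * A 1 b 0 * A 2 c 1 * A 3 d 1)
      + A 0 a 0 * A 1 b 1 * A 2 c 0 * A 3 d 0 + A 0 a 1 * A 1 b 0 * A 2 c 0 * A 3 d 0
      + A 0 a 1 * A 1 b 0 * A 2 c 1 * A 3 d 0 + A 0 a 1 * A 1 b 1 * A 2 c 1 * A 3 d 1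
      + A 0 a 2 * A 1 b 0 * A 2 c 0 * A 3 d 0 + A 0 a 2 * A 1 b 1 * A 2 c 0 * A 3 d 1 := by
  simp [T0, act_add, act_single, Fin.prod_univ_four]

lemma unit2 : unitT 4 3 2 = Pi.single (fun _ => 0) 1 + Pi.single (fun _ => 1) 1 := by
  simp [unitT, Fin.sum_univ_three]

lemma unit3 : unitT 4 3 3
    = Pi.single (fun _ => 0) 1 + Pi.single (fun _ => 1) 1 + Pi.single (fun _ => 2) 1 := by
  simp [unitT, Fin.sum_univ_three]

lemma act_unit2 (A : Fin 4 → Matrix (Fin 3) (Fin 3) ℂ) (a b c d : Fin 3) :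
    act A (unitT 4 3 2) ![a, b, c, d] = A 0 a 0 * A 1 b 0 * A 2 c 0 * A 3 d 0
      + A 0 a 1 * A 1 b 1 * A 2 c 1 * A 3 d 1 := by
  simp [unit2, act_add, act_single, Fin.prod_univ_four]

lemma vec4 (i : Fin 4 → Fin 3) : i = ![i 0, i 1, i 2, i 3] := by
  funext k; fin_cases k <;> rfl

noncomputable def gm (x : ℂ) : Fin 4 → Matrix (Fin 3) (Fin 3) ℂ :=
  ![!![0, x ^ 6, 1; x ^ 5 / 2, x ^ 8 / 4, -(x ^ 2 / 4); 0, x ^ 10, 0],
    !![1, 0, 0; 1 / x, -(1 / x ^ 4), 0; 0, 0, 1],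
    !![1, 0, 0; 1 / x ^ 3, -(1 / x ^ 9), 0; 0, 0, 1],
    !![1, x ^ 3, 0; 0, x ^ 5, 0; 0, 0, 1]]

noncomputable def Fm (x : ℂ) : Fin 3 → Fin 3 → Fin 3 → Fin 3 → ℂ :=
  ![
    ![![![1 + x ^ 6, 0, 0], ![x ^ 3, 0, 0], ![0, 0, 0]], ![![x ^ 5, -x, 0], ![x ^ 2, 0, 0], ![0, 0, 0]], ![![0, 0, 0], ![0, 0, 0], ![0, 0, 0]]], 
    ![![![x ^ 8 / 4 - x ^ 2 / 4, 0, 0], ![x ^ 5 / 4, x / 2, 0], ![0, 0, 0]], ![![x ^ 7 / 4 - x / 2, x ^ 3 / 4, 0], ![x ^ 4 / 4, 1, 0], ![0, 0, 0]], ![![0, 0, 0], ![0, 0, 0], ![0, 0, 0]]], 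
    ![![![x ^ 10, 0, 0], ![x ^ 7 - x, 0, 0], ![0, 0, 0]], ![![x ^ 9, 0, 0], ![x ^ 6, x ^ 2, 0], ![0, 0, 0]], ![![0, 0, 0], ![0, 0, 0], ![0, 0, 0]]]]

lemma gm_det {x : ℂ} (hx : x ≠ 0) (k : Fin 4) : (gm x k).det ≠ 0 := by
  fin_cases k <;> simp [gm, det_fin_three, hx]

lemma gm_act {x : ℂ} (hx : x ≠ 0) (a b c d : Fin 3) : act (gm x) T0 ![a, b, c, d] = Fm x a b c d := by
  rw [act_T0]
  fin_cases a <;> fin_cases b <;> fin_cases c <;> fin_cases d <;> simp [gm, Fm] <;>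
    field_simp <;> ring

lemma border2 : unitT 4 3 2 ∈ closure (orbit T0) := by
  have hc : Continuous fun (x : ℂ) (i : Fin 4 → Fin 3) => Fm x (i 0) (i 1) (i 2) (i 3) := by
    refine continuous_pi fun i => ?_
    generalize i 0 = a, i 1 = b, i 2 = c, i 3 = d
    fin_cases a <;> fin_cases b <;> fin_cases c <;> fin_cases d <;> simp [Fm] <;> fun_prop
  have h0 : (fun i : Fin 4 → Fin 3 => Fm 0 (i 0) (i 1) (i 2) (i 3)) = unitT 4 3 2 := by
    funext i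
    have := act_unit2 (fun _ => 1) (i 0) (i 1) (i 2) (i 3)
    have e : act (fun _ => 1) (unitT 4 3 2) = unitT 4 3 2 := by
      funext j
      rw [unit2, act_add, act_single, act_single]
      simp [Matrix.one_apply, Pi.single_apply, Finset.prod_boole, funext_iff]
    rw [e, ← vec4] at this
    rw [this]
    generalize i 0 = a, i 1 = b, i 2 = c, i 3 = d
    fin_cases a <;> fin_cases b <;> fin_cases c <;> fin_cases d <;> simp [Fm, Matrix.one_apply]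
  have ht := (hc.tendsto 0).mono_left (nhdsWithin_le_nhds (s := {0}ᶜ))
  rw [h0] at ht
  refine mem_closure_of_tendsto ht ?_
  filter_upwards [self_mem_nhdsWithin] with x hx
  refine ⟨fun k => GeneralLinearGroup.mkOfDetNeZero _ (gm_det hx k), ?_⟩
  funext i
  rw [← gm_act hx, ← vec4]
  rfl

abbrev Q := Fin 2 → Fin 2 → Fin 2 → Fin 2 → ℂ

noncomputable def iH (s : Q) : ℂ :=
  s 0 0 0 0 * s 1 1 1 1 - s 0 0 0 1 * s 1 1 1 0 - s 0 0 1 0 * s 1 1 0 1 + s 0 0 1 1 * s 1 1 0 0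
    - s 0 1 0 0 * s 1 0 1 1 + s 0 1 0 1 * s 1 0 1 0 + s 0 1 1 0 * s 1 0 0 1 - s 0 1 1 1 * s 1 0 0 0

noncomputable def d4 (a b c d e f g h i j k l m n o p : ℂ) : ℂ :=
  (a * f - b * e) * (k * p - l * o) - (a * g - c * e) * (j * p - l * n)
    + (a * h - d * e) * (j * o - k * n) + (b * g - c * f) * (i * p - l * m)
    - (b * h - d * f) * (i * o - k * m) + (c * h - d * g) * (i * n - j * m)

noncomputable def iL (s : Q) : ℂ :=
  d4 (s 0 0 0 0) (s 0 0 0 1) (s 0 0 1 0) (s 0 0 1 1) (s 0 1 0 0) (s 0 1 0 1) (s 0 1 1 0) (s 0 1 1 1)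
    (s 1 0 0 0) (s 1 0 0 1) (s 1 0 1 0) (s 1 0 1 1) (s 1 1 0 0) (s 1 1 0 1) (s 1 1 1 0) (s 1 1 1 1)

noncomputable def iM (s : Q) : ℂ :=
  d4 (s 0 0 0 0) (s 0 0 0 1) (s 0 1 0 0) (s 0 1 0 1) (s 0 0 1 0) (s 0 0 1 1) (s 0 1 1 0) (s 0 1 1 1)
    (s 1 0 0 0) (s 1 0 0 1) (s 1 1 0 0) (s 1 1 0 1) (s 1 0 1 0) (s 1 0 1 1) (s 1 1 1 0) (s 1 1 1 1)

lemma inv2 (p q : Fin 2 → ℂ) (s : Q) :
    iH (fun i j k l => p j * s i 0 k l + q j * s i 1 k l) = (p 0 * q 1 - p 1 * q 0) * iH s ∧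
    iL (fun i j k l => p j * s i 0 k l + q j * s i 1 k l) = (p 0 * q 1 - p 1 * q 0) ^ 2 * iL s ∧
    iM (fun i j k l => p j * s i 0 k l + q j * s i 1 k l) = (p 0 * q 1 - p 1 * q 0) ^ 2 * iM s := by
  refine ⟨?_, ?_, ?_⟩ <;> simp only [iH, iL, iM, d4] <;> ring

lemma inv3 (p q : Fin 2 → ℂ) (s : Q) :
    iH (fun i j k l => p k * s i j 0 l + q k * s i j 1 l) = (p 0 * q 1 - p 1 * q 0) * iH s ∧
    iL (fun i j k l => p k * s i j 0 l + q k * s i j 1 l) = (p 0 * q 1 - p 1 * q 0) ^ 2 * iL s ∧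
    iM (fun i j k l => p k * s i j 0 l + q k * s i j 1 l) = (p 0 * q 1 - p 1 * q 0) ^ 2 * iM s := by
  refine ⟨?_, ?_, ?_⟩ <;> simp only [iH, iL, iM, d4] <;> ring

lemma inv4 (p q : Fin 2 → ℂ) (s : Q) :
    iH (fun i j k l => p l * s i j k 0 + q l * s i j k 1) = (p 0 * q 1 - p 1 * q 0) * iH s ∧
    iL (fun i j k l => p l * s i j k 0 + q l * s i j k 1) = (p 0 * q 1 - p 1 * q 0) ^ 2 * iL s ∧
    iM (fun i j k l => p l * s i j k 0 + q l * s i j k 1) = (p 0 * q 1 - p 1 * q 0) ^ 2 * iM s := by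
  refine ⟨?_, ?_, ?_⟩ <;> simp only [iH, iL, iM, d4] <;> ring

def res (r : Fin 4 → Fin 2 → Fin 3) (S : (Fin 4 → Fin 3) → ℂ) : Q :=
  fun i j k l => S ![r 0 i, r 1 j, r 2 k, r 3 l]

noncomputable def s1 (a b c : Fin 2 → ℂ) : Q :=
  fun i => ![![![b i + c i, 0], ![b i, -a i]], ![![a i, c i], ![0, b i]]]

lemma rel_s1 (a b c : Fin 2 → ℂ) (h : iM (s1 a b c) = 0) : 4 * iL (s1 a b c) = iH (s1 a b c) ^ 2 := by
  have h1 : iM (s1 a b c) = (a 0 * b 1 - a 1 * b 0) ^ 2 := by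
    simp [iM, d4, s1]; ring
  have h2 : a 0 * b 1 - a 1 * b 0 = 0 := by
    rw [h1] at h; exact pow_eq_zero_iff (two_ne_zero) |>.1 h
  simp [iL, iH, d4, s1]
  linear_combination (4 * (c 0 * a 1 - c 1 * a 0)) * h2

lemma rel_T0 (A : Fin 4 → Matrix (Fin 3) (Fin 3) ℂ) (r : Fin 4 → Fin 2 → Fin 3)
    (h : iM (res r (act A T0)) = 0) : 4 * iL (res r (act A T0)) = iH (res r (act A T0)) ^ 2 := by
  set s := s1 (fun i => A 0 (r 0 i) 0) (fun i => A 0 (r 0 i) 1) (fun i => A 0 (r 0 i) 2) with hs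
  set s4 : Q := fun i j k l => A 3 (r 3 l) 0 * s i j k 0 + A 3 (r 3 l) 1 * s i j k 1 with hs4
  set s3 : Q := fun i j k l => A 2 (r 2 k) 0 * s4 i j 0 l + A 2 (r 2 k) 1 * s4 i j 1 l with hs3
  have e : res r (act A T0)
      = fun i j k l => A 1 (r 1 j) 0 * s3 i 0 k l + A 1 (r 1 j) 1 * s3 i 1 k l := by
    funext i j k l
    simp only [res, act_T0, hs3, hs4, hs, s1]
    simp
    ring
  obtain ⟨a1, a2, a3⟩ := inv2 (fun j => A 1 (r 1 j) 0) (fun j => A 1 (r 1 j) 1) s3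
  obtain ⟨b1, b2, b3⟩ := inv3 (fun j => A 2 (r 2 j) 0) (fun j => A 2 (r 2 j) 1) s4
  obtain ⟨c1, c2, c3⟩ := inv4 (fun j => A 3 (r 3 j) 0) (fun j => A 3 (r 3 j) 1) s
  rw [e, a3, b3, c3] at h
  rw [e, a1, a2, b1, b2, c1, c2]
  simp only [mul_eq_zero, pow_eq_zero_iff two_ne_zero] at h
  rcases h with h | h | h | h
  · rw [h]; ring
  · rw [h]; ring
  · rw [h]; ring
  · have := rel_s1 _ _ _ h
    rw [← hs] at this
    rw [mul_pow, mul_pow, mul_pow, ← this]; ring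

lemma exists_minor (G : Matrix (Fin 3) (Fin 3) ℂ) (h : G.det ≠ 0) :
    ∃ r : Fin 2 → Fin 3, G (r 0) 0 * G (r 1) 1 - G (r 1) 0 * G (r 0) 1 ≠ 0 := by
  by_contra hc
  push Not at hc
  apply h
  have h1 := hc ![0, 1]
  have h2 := hc ![0, 2]
  have h3 := hc ![1, 2]
  simp only [cons_val_zero, cons_val_one] at h1 h2 h3
  rw [det_fin_three]
  linear_combination G 2 2 * h1 - G 1 2 * h2 + G 0 2 * h3

lemma not_hm2 (h g : Fin 4 → GL (Fin 3) ℂ) (a : Fin 4 → Fin 3 → ℤ)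
    (ht : Tendsto (fun t : ℂ => act (fun k => (h k : Matrix (Fin 3) (Fin 3) ℂ)
      * diagonal (fun i => t ^ a k i) * ((h k)⁻¹).val) T0) (𝓝[≠] 0)
      (𝓝 (act (fun k => (g k : Matrix (Fin 3) (Fin 3) ℂ)) (unitT 4 3 2)))) : False := by
  set P : Fin 4 → Matrix (Fin 3) (Fin 3) ℂ := fun k => ((h k)⁻¹ : GL (Fin 3) ℂ) with hP
  have h1 := ((act_cont P).tendsto _).comp ht
  rw [act_act] at h1
  set G : Fin 4 → Matrix (Fin 3) (Fin 3) ℂ := fun k => P k * g k with hG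
  have hdet : ∀ k, (G k).det ≠ 0 := fun k => ((h k)⁻¹ * g k).det_ne_zero
  choose r hr using fun k => exists_minor (G k) (hdet k)
  set S := res r (act P T0) with hS
  set w : ℂ → ℂ := fun t => ∏ k, t ^ a k (r k 0) * t ^ a k (r k 1) with hw
  have cres : Continuous (res r) := by unfold res; fun_prop
  have h2 := (cres.tendsto _).comp h1
  have e : (res r ∘ act P ∘ fun t : ℂ => act (fun k => (h k : Matrix (Fin 3) (Fin 3) ℂ)
      * diagonal (fun i => t ^ a k i) * ((h k)⁻¹).val) T0) = fun t i j k l =>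
      t ^ a 0 (r 0 i) * t ^ a 1 (r 1 j) * t ^ a 2 (r 2 k) * t ^ a 3 (r 3 l) * S i j k l := by
    funext t i j k l
    simp only [Function.comp, act_act, hS, res]
    have : (fun k => P k * ((h k : Matrix (Fin 3) (Fin 3) ℂ) * diagonal (fun i => t ^ a k i)
        * ((h k)⁻¹).val)) = fun k => diagonal (fun i => t ^ a k i) * P k := by
      funext k
      simp only [hP, ← mul_assoc, Units.inv_mul, one_mul]
    rw [this, act_T0, act_T0]
    simp only [diagonal_mul]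
    ring
  rw [e] at h2
  have cH : Continuous iH := by unfold iH; fun_prop
  have cL : Continuous iL := by unfold iL d4; fun_prop
  have cM : Continuous iM := by unfold iM d4; fun_prop
  have tH : Tendsto (fun t => w t * iH S) (𝓝[≠] 0) (𝓝 (iH (res r (act G (unitT 4 3 2))))) := by
    refine ((cH.tendsto _).comp h2).congr fun t => ?_
    simp only [Function.comp, iH, hw, Fin.prod_univ_four]; ring
  have tL : Tendsto (fun t => w t ^ 2 * iL S) (𝓝[≠] 0) (𝓝 (iL (res r (act G (unitT 4 3 2))))) := by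
    refine ((cL.tendsto _).comp h2).congr fun t => ?_
    simp only [Function.comp, iL, d4, hw, Fin.prod_univ_four]; ring
  have tM : Tendsto (fun t => w t ^ 2 * iM S) (𝓝[≠] 0) (𝓝 (iM (res r (act G (unitT 4 3 2))))) := by
    refine ((cM.tendsto _).comp h2).congr fun t => ?_
    simp only [Function.comp, iM, d4, hw, Fin.prod_univ_four]; ring
  have vH : iH (res r (act G (unitT 4 3 2)))
      = ∏ k, (G k (r k 0) 0 * G k (r k 1) 1 - G k (r k 1) 0 * G k (r k 0) 1) := by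
    simp only [iH, res, act_unit2, Fin.prod_univ_four]; ring
  have vL : iL (res r (act G (unitT 4 3 2))) = 0 := by
    simp only [iL, d4, res, act_unit2]; ring
  have vM : iM (res r (act G (unitT 4 3 2))) = 0 := by
    simp only [iM, d4, res, act_unit2]; ring
  have nz : iH (res r (act G (unitT 4 3 2))) ^ 2 ≠ 0 := by
    rw [vH]; exact pow_ne_zero _ (Finset.prod_ne_zero_iff.2 fun k _ => hr k)
  apply nz
  refine tendsto_nhds_unique (tH.pow 2) ?_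
  by_cases hM : iM S = 0
  · have := rel_T0 P r hM
    rw [← hS] at this
    have h3 := tL.const_mul 4
    rw [vL, mul_zero] at h3
    refine h3.congr fun t => ?_
    rw [mul_pow, ← this]; ring
  · have h3 := tM.mul_const (iH S ^ 2 / iM S)
    rw [vM, zero_mul] at h3
    refine h3.congr fun t => ?_
    field_simp

lemma not_hm3 (g : Fin 4 → GL (Fin 3) ℂ) (A : ℂ → Fin 4 → Matrix (Fin 3) (Fin 3) ℂ)
    (ht : Tendsto (fun t : ℂ => act (A t) T0) (𝓝[≠] 0)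
      (𝓝 (act (fun k => (g k : Matrix (Fin 3) (Fin 3) ℂ)) (unitT 4 3 3)))) : False := by
  have h1 := ((act_cont (fun k => ((g k)⁻¹ : GL (Fin 3) ℂ))).tendsto _).comp ht
  rw [act_act] at h1
  set N : ((Fin 4 → Fin 3) → ℂ) → ℂ :=
    fun S => (Matrix.of fun a j : Fin 3 => S ![a, j, a, a]).det with hN
  have cN : Continuous N := by
    simp only [hN, det_fin_three, of_apply]; fun_prop
  have h2 := (cN.tendsto _).comp h1
  have e1 : N (act (fun k => (((g k)⁻¹ : GL (Fin 3) ℂ) : Matrix (Fin 3) (Fin 3) ℂ) * g k)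
      (unitT 4 3 3)) = 1 := by
    simp only [Units.inv_mul, hN, det_fin_three, of_apply, unit3, act_add, act_single,
      Fin.prod_univ_four]
    simp [Matrix.one_apply]
  have e2 : (N ∘ act (fun k => (((g k)⁻¹ : GL (Fin 3) ℂ) : Matrix (Fin 3) (Fin 3) ℂ))
      ∘ fun t : ℂ => act (A t) T0) = fun _ => 0 := by
    funext t
    simp only [Function.comp, act_act]
    generalize (fun k => (((g k)⁻¹ : GL (Fin 3) ℂ) : Matrix (Fin 3) (Fin 3) ℂ) * A t k) = B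
    have : ∀ a j, act B T0 ![a, j, a, a] = B 1 j 0 * (-(B 0 a 0 * B 2 a 1 * B 3 a 1)
        + B 0 a 1 * B 2 a 0 * B 3 a 0 + B 0 a 1 * B 2 a 1 * B 3 a 0 + B 0 a 2 * B 2 a 0 * B 3 a 0)
        + B 1 j 1 * (B 0 a 0 * B 2 a 0 * B 3 a 0 + B 0 a 1 * B 2 a 1 * B 3 a 1
          + B 0 a 2 * B 2 a 0 * B 3 a 1) := by
      intro a j; rw [act_T0]; ring
    simp only [hN, det_fin_three, of_apply, this]
    generalize (-(B 0 0 0 * B 2 0 1 * B 3 0 1) + B 0 0 1 * B 2 0 0 * B 3 0 0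
      + B 0 0 1 * B 2 0 1 * B 3 0 0 + B 0 0 2 * B 2 0 0 * B 3 0 0) = x0
    generalize (-(B 0 1 0 * B 2 1 1 * B 3 1 1) + B 0 1 1 * B 2 1 0 * B 3 1 0
      + B 0 1 1 * B 2 1 1 * B 3 1 0 + B 0 1 2 * B 2 1 0 * B 3 1 0) = x1
    generalize (-(B 0 2 0 * B 2 2 1 * B 3 2 1) + B 0 2 1 * B 2 2 0 * B 3 2 0
      + B 0 2 1 * B 2 2 1 * B 3 2 0 + B 0 2 2 * B 2 2 0 * B 3 2 0) = x2
    ring
  rw [e1, e2] at h2
  exact zero_ne_one (tendsto_nhds_unique tendsto_const_nhds h2)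

theorem result : ∃ T : (Fin 4 → Fin 3) → ℂ, hmQ T < borderQ T := by
  refine ⟨T0, lt_of_lt_of_le (b := 2) (Nat.lt_succ_of_le (csSup_le' ?_))
    (le_csSup ⟨3, fun r hr => hr.1⟩ ⟨by norm_num, border2⟩)⟩
  rintro r ⟨hr, h, a, _, ⟨g, rfl⟩, ht⟩
  by_contra hc
  have : r = 2 ∨ r = 3 := by omega
  rcases this with rfl | rfl
  · exact not_hm2 h g a ht
  · exact not_hm3 g _ ht

end Pool.Agent.Results.MP_5e02e7_ag.Gap
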